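import Mathlib

set_option autoImplicit false

namespace Pool.Agent.Results.MP_1a6900_co.Packing

open Finset

noncomputable section

/-- the vertices of the unit cube -/
def cube (n : ℕ) : Set (EuclideanSpace ℝ (Fin n)) := {x | ∀ i, x i = 0 ∨ x i = 1}

/-- the width of a set: minimum over unit vectors `u` of the extent in direction `u` -/
def width {n : ℕ} (C : Set (EuclideanSpace ℝ (Fin n))) : ℝ :=
  ⨅ u : Metric.sphere (0 : EuclideanSpace ℝ (Fin n)) 1,
    (sSup ((fun x => inner ℝ (u : EuclideanSpace ℝ (Fin n)) x) '' C) -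
      sInf ((fun x => inner ℝ (u : EuclideanSpace ℝ (Fin n)) x) '' C))

/-- a packing of nonempty subsets of Euclidean width at least `t` into the cube -/
def IsPacking (n : ℕ) (t : ℝ) (F : Finset (Set (EuclideanSpace ℝ (Fin n)))) : Prop :=
  (∀ A ∈ F, A ⊆ cube n ∧ A.Nonempty ∧ t ≤ width (convexHull ℝ A)) ∧
    ∀ A ∈ F, ∀ B ∈ F, A ≠ B → Disjoint A B

/-- the largest size of a packing -/
def N (n : ℕ) (t : ℝ) : ℕ := sSup {k | ∃ F, IsPacking n t F ∧ F.card = k}

/-! ### Characters of `(ZMod 2)^k` -/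

/-- sign character of `ZMod 2` -/
def σ (a : ZMod 2) : ℝ := if a = 0 then 1 else -1

lemma σ_add (a b : ZMod 2) : σ (a + b) = σ a * σ b := by
  have h : ∀ a b : ZMod 2, (a = 0 ∧ b = 0 ∧ a + b = 0) ∨ (a = 0 ∧ b ≠ 0 ∧ a + b ≠ 0) ∨
    (a ≠ 0 ∧ b = 0 ∧ a + b ≠ 0) ∨ (a ≠ 0 ∧ b ≠ 0 ∧ a + b = 0) := by decide
  unfold σ
  rcases h a b with ⟨h1, h2, h3⟩ | ⟨h1, h2, h3⟩ | ⟨h1, h2, h3⟩ | ⟨h1, h2, h3⟩
  · rw [if_pos h1, if_pos h2, if_pos h3]; norm_num
  · rw [if_pos h1, if_neg h2, if_neg h3]; norm_num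
  · rw [if_neg h1, if_pos h2, if_neg h3]; norm_num
  · rw [if_neg h1, if_neg h2, if_pos h3]; norm_num

lemma sum_char {k : ℕ} (h : Fin k → ZMod 2) (hh : h ≠ 0) :
    ∑ x : Fin k → ZMod 2, σ (∑ i, x i * h i) = 0 := by
  obtain ⟨j, hj⟩ : ∃ j, h j ≠ 0 := by
    by_contra hcon
    push Not at hcon
    exact hh (funext hcon)
  have hj1 : h j = 1 := by
    have : ∀ a : ZMod 2, a ≠ 0 → a = 1 := by decide
    exact this _ hj
  set S := ∑ x : Fin k → ZMod 2, σ (∑ i, x i * h i) with hS
  have h1 : S = ∑ x : Fin k → ZMod 2, σ (∑ i, (x + (Pi.single j 1 : Fin k → ZMod 2)) i * h i) := by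
    rw [hS]
    exact (Equiv.sum_comp (Equiv.addRight (Pi.single j 1 : Fin k → ZMod 2))
      (fun x : Fin k → ZMod 2 => σ (∑ i, x i * h i))).symm
  have h2 : ∀ x : Fin k → ZMod 2, σ (∑ i, (x + (Pi.single j 1 : Fin k → ZMod 2)) i * h i) =
      - σ (∑ i, x i * h i) := by
    intro x
    have e : ∑ i, (x + (Pi.single j 1 : Fin k → ZMod 2)) i * h i = ∑ i, x i * h i + 1 := by
      simp only [Pi.add_apply, add_mul]
      rw [Finset.sum_add_distrib]
      congr 1
      rw [Finset.sum_eq_single j]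
      · rw [Pi.single_eq_same, hj1, one_mul]
      · intro b _ hb
        rw [Pi.single_eq_of_ne hb, zero_mul]
      · intro hb; exact absurd (Finset.mem_univ _) hb
    rw [e, σ_add]
    have : σ 1 = -1 := by unfold σ; rw [if_neg (by decide)]
    rw [this]; ring
  rw [Finset.sum_congr rfl (fun x _ => h2 x), Finset.sum_neg_distrib, ← hS] at h1
  linarith

/-- embedding of `(ZMod 2)^n` into the cube -/
def emb {n : ℕ} (y : Fin n → ZMod 2) : EuclideanSpace ℝ (Fin n) :=
  WithLp.toLp 2 (fun i => (1 - σ (y i)) / 2)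

lemma emb_apply {n : ℕ} (y : Fin n → ZMod 2) (i : Fin n) : emb y i = (1 - σ (y i)) / 2 := rfl

lemma emb_mem {n : ℕ} (y : Fin n → ZMod 2) : emb y ∈ cube n := by
  intro i
  rw [emb_apply]
  unfold σ
  split_ifs
  · left; norm_num
  · right; norm_num

lemma emb_injective {n : ℕ} : Function.Injective (emb (n := n)) := by
  intro y z h
  funext i
  have h1 : emb y i = emb z i := by rw [h]
  rw [emb_apply, emb_apply] at h1
  have h2 : σ (y i) = σ (z i) := by linarith
  have h3 : ∀ a b : ZMod 2, a ≠ b → (a = 0 ∧ b ≠ 0) ∨ (a ≠ 0 ∧ b = 0) := by decide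
  by_contra hne
  unfold σ at h2
  rcases h3 _ _ hne with ⟨h4, h5⟩ | ⟨h4, h5⟩
  · rw [if_pos h4, if_neg h5] at h2; norm_num at h2
  · rw [if_neg h4, if_pos h5] at h2; norm_num at h2

/-- the linear map with columns `g i` -/
def φ {n k : ℕ} (g : Fin n → Fin k → ZMod 2) : (Fin k → ZMod 2) →+ (Fin n → ZMod 2) where
  toFun x := fun j => ∑ i, x i * g j i
  map_zero' := by funext j; simp
  map_add' x y := by
    funext j
    simp only [Pi.add_apply, add_mul]
    rw [Finset.sum_add_distrib]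

/-- the extent of a coset in any unit direction is at least one -/
lemma extent {n k : ℕ} (g : Fin n → Fin k → ZMod 2) (hg : Function.Injective g)
    (hg0 : ∀ i, g i ≠ 0) (c : Fin n → ZMod 2) (u : EuclideanSpace ℝ (Fin n)) (hu : ‖u‖ = 1)
    (m Mx : ℝ) (hm : ∀ x, m ≤ inner ℝ u (emb (c + φ g x)))
    (hM : ∀ x, inner ℝ u (emb (c + φ g x)) ≤ Mx) : 1 ≤ Mx - m := by
  set V : ℝ := ((Fintype.card (Fin k → ZMod 2) : ℕ) : ℝ) with hV
  have hVpos : 0 < V := by rw [hV]; exact_mod_cast Fintype.card_pos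
  set μ : ℝ := (∑ i, u i) / 2 with hμ
  set w : (Fin k → ZMod 2) → ℝ := fun x => ∑ i, u i * σ ((c + φ g x) i) with hw
  have hf : ∀ x, inner ℝ u (emb (c + φ g x)) = μ - w x / 2 := by
    intro x
    rw [PiLp.inner_apply]
    rw [hμ, hw]
    simp only [emb_apply]
    rw [← sub_div, ← Finset.sum_sub_distrib, Finset.sum_div]
    refine Finset.sum_congr rfl (fun i _ => ?_)
    simp only [RCLike.inner_apply, conj_trivial]
    ring
  have hσ : ∀ x i, σ ((c + φ g x) i) = σ (c i) * σ (∑ l, x l * g i l) := by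
    intro x i
    rw [← σ_add]; rfl
  have hsum0 : ∑ x, w x = 0 := by
    rw [hw]
    rw [Finset.sum_comm]
    refine Finset.sum_eq_zero (fun i _ => ?_)
    rw [← Finset.mul_sum, Finset.sum_congr rfl (fun x _ => hσ x i), ← Finset.mul_sum,
      sum_char _ (hg0 i)]
    ring
  have hσsq : ∀ a, σ a * σ a = 1 := by
    intro a; unfold σ; split_ifs <;> norm_num
  have hsum2 : ∑ x, w x ^ 2 = V := by
    have h1 : ∀ x, w x ^ 2 = ∑ i, ∑ j, (u i * u j * (σ (c i) * σ (c j))) *
        σ (∑ l, x l * (g i l + g j l)) := by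
      intro x
      rw [pow_two, hw, Finset.sum_mul_sum]
      refine Finset.sum_congr rfl (fun i _ => Finset.sum_congr rfl (fun j _ => ?_))
      rw [hσ, hσ]
      have : ∑ l, x l * (g i l + g j l) = ∑ l, x l * g i l + ∑ l, x l * g j l := by
        rw [← Finset.sum_add_distrib]
        exact Finset.sum_congr rfl (fun l _ => by ring)
      rw [this, σ_add]
      ring
    rw [Finset.sum_congr rfl (fun x _ => h1 x), Finset.sum_comm]
    have h2 : ∀ i, ∑ x : Fin k → ZMod 2, ∑ j, (u i * u j * (σ (c i) * σ (c j))) *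
        σ (∑ l, x l * (g i l + g j l)) = u i ^ 2 * V := by
      intro i
      rw [Finset.sum_comm, Finset.sum_eq_single i]
      · have h3 : ∀ x : Fin k → ZMod 2, (u i * u i * (σ (c i) * σ (c i))) *
            σ (∑ l, x l * (g i l + g i l)) = u i ^ 2 := by
          intro x
          have h4 : ∑ l, x l * (g i l + g i l) = 0 := by
            refine Finset.sum_eq_zero (fun l _ => ?_)
            have : ∀ a : ZMod 2, a + a = 0 := by decide
            rw [this, mul_zero]
          rw [h4, hσsq]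
          unfold σ
          rw [if_pos rfl]; ring
        rw [Finset.sum_congr rfl (fun x _ => h3 x), Finset.sum_const, Finset.card_univ,
          nsmul_eq_mul, mul_comm]
      · intro j _ hji
        rw [← Finset.mul_sum, sum_char (fun l => g i l + g j l), mul_zero]
        intro h0
        apply hji
        apply hg
        funext l
        have h5 := congrFun h0 l
        have : ∀ a b : ZMod 2, a + b = 0 → b = a := by decide
        exact this _ _ h5
      · intro h; exact absurd (Finset.mem_univ _) h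
    rw [Finset.sum_congr rfl (fun i _ => h2 i), ← Finset.sum_mul]
    have h6 : ∑ i, u i ^ 2 = 1 := by
      have := EuclideanSpace.norm_sq_eq u
      rw [hu] at this
      simp only [Real.norm_eq_abs, sq_abs] at this
      rw [← this]; norm_num
    rw [h6, one_mul]
  -- Popoviciu
  have hpop : 0 ≤ ∑ x, (Mx - (μ - w x / 2)) * ((μ - w x / 2) - m) := by
    refine Finset.sum_nonneg (fun x _ => ?_)
    have h1 := hm x
    have h2 := hM x
    rw [hf] at h1 h2
    exact mul_nonneg (by linarith) (by linarith)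
  have hexp : ∑ x, (Mx - (μ - w x / 2)) * ((μ - w x / 2) - m) =
      (Mx - μ) * (μ - m) * V - V / 4 := by
    have h1 : ∀ x, (Mx - (μ - w x / 2)) * ((μ - w x / 2) - m) =
        (Mx - μ) * (μ - m) + ((μ - m) / 2 - (Mx - μ) / 2) * w x - (1/4) * w x ^ 2 := by
      intro x; ring
    rw [Finset.sum_congr rfl (fun x _ => h1 x), Finset.sum_sub_distrib, Finset.sum_add_distrib,
      Finset.sum_const, ← Finset.mul_sum, ← Finset.mul_sum, hsum0, hsum2, Finset.card_univ,
      nsmul_eq_mul]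
    ring
  rw [hexp] at hpop
  have h7 : 1 / 4 ≤ (Mx - μ) * (μ - m) := by
    have : 0 ≤ ((Mx - μ) * (μ - m) - 1 / 4) * V := by linarith
    have := nonneg_of_mul_nonneg_left this hVpos
    linarith
  have h8 : 0 ≤ Mx - m := by
    have := hm 0
    have := hM 0
    linarith
  nlinarith [sq_nonneg ((Mx - μ) - (μ - m))]

/-- the coset as a subset of the cube -/
def cosetSet {n k : ℕ} (g : Fin n → Fin k → ZMod 2)
    (q : (Fin n → ZMod 2) ⧸ (φ g).range) : Set (EuclideanSpace ℝ (Fin n)) :=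
  emb '' {y | (QuotientAddGroup.mk y : (Fin n → ZMod 2) ⧸ (φ g).range) = q}

lemma cosetSet_width {n k : ℕ} (hn : 1 ≤ n) (g : Fin n → Fin k → ZMod 2)
    (hg : Function.Injective g) (hg0 : ∀ i, g i ≠ 0)
    (q : (Fin n → ZMod 2) ⧸ (φ g).range) : 1 ≤ width (convexHull ℝ (cosetSet g q)) := by
  obtain ⟨c, rfl⟩ := QuotientAddGroup.mk_surjective q
  have hne : Nonempty (Metric.sphere (0 : EuclideanSpace ℝ (Fin n)) 1) := by
    refine ⟨⟨EuclideanSpace.single ⟨0, by omega⟩ 1, ?_⟩⟩
    simp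
  unfold width
  refine le_ciInf (fun u => ?_)
  have hu : ‖(u : EuclideanSpace ℝ (Fin n))‖ = 1 := by
    have := u.2
    rwa [mem_sphere_zero_iff_norm] at this
  have hfin : (cosetSet g (QuotientAddGroup.mk c)).Finite := by
    unfold cosetSet
    exact (Set.toFinite _).image _
  have hbdd : Bornology.IsBounded (convexHull ℝ (cosetSet g (QuotientAddGroup.mk c))) :=
    isBounded_convexHull.2 hfin.isBounded
  have hbdd' : Bornology.IsBounded ((fun x => inner ℝ (u : EuclideanSpace ℝ (Fin n)) x) ''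
      (convexHull ℝ (cosetSet g (QuotientAddGroup.mk c)))) := by
    have hL : LipschitzWith ‖innerSL ℝ (u : EuclideanSpace ℝ (Fin n))‖₊
        (innerSL ℝ (u : EuclideanSpace ℝ (Fin n))) := ContinuousLinearMap.lipschitz _
    exact hL.isBounded_image hbdd
  have hmem : ∀ x : Fin k → ZMod 2, emb (c + φ g x) ∈
      convexHull ℝ (cosetSet g (QuotientAddGroup.mk c)) := by
    intro x
    apply subset_convexHull
    refine ⟨c + φ g x, ?_, rfl⟩
    show (QuotientAddGroup.mk (c + φ g x) : (Fin n → ZMod 2) ⧸ (φ g).range) =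
      QuotientAddGroup.mk c
    rw [QuotientAddGroup.eq]
    have : -(c + φ g x) + c = φ g (-x) := by
      rw [map_neg]; abel
    rw [this]
    exact ⟨-x, rfl⟩
  refine extent g hg hg0 c u hu _ _ ?_ ?_
  · intro x
    exact csInf_le hbdd'.bddBelow ⟨_, hmem x, rfl⟩
  · intro x
    exact le_csSup hbdd'.bddAbove ⟨_, hmem x, rfl⟩

lemma cosetSet_nonempty {n k : ℕ} (g : Fin n → Fin k → ZMod 2)
    (q : (Fin n → ZMod 2) ⧸ (φ g).range) : (cosetSet g q).Nonempty := by
  obtain ⟨c, rfl⟩ := QuotientAddGroup.mk_surjective q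
  exact ⟨emb c, c, rfl, rfl⟩

lemma cosetSet_disjoint {n k : ℕ} (g : Fin n → Fin k → ZMod 2)
    (q r : (Fin n → ZMod 2) ⧸ (φ g).range) (h : q ≠ r) :
    Disjoint (cosetSet g q) (cosetSet g r) := by
  rw [Set.disjoint_left]
  rintro _ ⟨y, hy, rfl⟩ ⟨z, hz, hyz⟩
  have := emb_injective hyz
  subst this
  exact h (hy.symm.trans hz)

/-- the packing by cosets -/
lemma exists_packing {n k : ℕ} (hn : 1 ≤ n) (hnk : n < 2 ^ k) :
    ∃ F, IsPacking n 1 F ∧ 2 ^ n ≤ 2 ^ k * F.card := by
  classical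
  -- `n` distinct nonzero vectors
  have hcard : Fintype.card (Fin n) ≤ Fintype.card {v : Fin k → ZMod 2 // v ≠ 0} := by
    rw [Fintype.card_fin, Fintype.card_subtype_compl, Fintype.card_subtype_eq]
    simp only [Fintype.card_pi, ZMod.card, Finset.prod_const, Finset.card_univ, Fintype.card_fin]
    omega
  obtain ⟨e⟩ := Function.Embedding.nonempty_of_card_le hcard
  let g : Fin n → Fin k → ZMod 2 := fun i => (e i).1
  have hg : Function.Injective g := fun i j h => e.injective (Subtype.ext h)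
  have hg0 : ∀ i, g i ≠ 0 := fun i => (e i).2
  have hinj : Function.Injective (cosetSet g) := by
    intro q r h
    by_contra hne
    have h1 := cosetSet_disjoint g q r hne
    rw [← h] at h1
    obtain ⟨x, hx⟩ := cosetSet_nonempty g q
    exact Set.disjoint_left.1 h1 hx hx
  have : Fintype ((Fin n → ZMod 2) ⧸ (φ g).range) := Fintype.ofFinite _
  refine ⟨Finset.univ.map ⟨cosetSet g, hinj⟩, ⟨?_, ?_⟩, ?_⟩
  · intro A hA
    rw [Finset.mem_map] at hA
    obtain ⟨q, _, rfl⟩ := hA
    refine ⟨?_, cosetSet_nonempty g q, cosetSet_width hn g hg hg0 q⟩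
    rintro _ ⟨y, _, rfl⟩
    exact emb_mem y
  · intro A hA B hB hAB
    rw [Finset.mem_map] at hA hB
    obtain ⟨q, _, rfl⟩ := hA
    obtain ⟨r, _, rfl⟩ := hB
    exact cosetSet_disjoint g q r (fun h => hAB (by rw [h]))
  · rw [Finset.card_map, Finset.card_univ]
    have h1 := AddSubgroup.card_eq_card_quotient_mul_card_addSubgroup (φ g).range
    have h2 : Nat.card (Fin n → ZMod 2) = 2 ^ n := by
      rw [Nat.card_eq_fintype_card]; simp [ZMod.card]
    have h3 : Nat.card (φ g).range ≤ 2 ^ k := by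
      have h4 : Nat.card (φ g).range ≤ Nat.card (Fin k → ZMod 2) :=
        Nat.card_le_card_of_surjective (φ g).rangeRestrict (AddMonoidHom.rangeRestrict_surjective _)
      have h5 : Nat.card (Fin k → ZMod 2) = 2 ^ k := by
        rw [Nat.card_eq_fintype_card]; simp [ZMod.card]
      rwa [h5] at h4
    rw [h2, Nat.card_eq_fintype_card (α := (Fin n → ZMod 2) ⧸ (φ g).range)] at h1
    rw [h1, mul_comm]
    exact Nat.mul_le_mul_right _ h3

/-! ### The upper bound -/

lemma cube_finite (n : ℕ) : (cube n).Finite := by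
  have : cube n ⊆ Set.range (emb (n := n)) := by
    intro x hx
    refine ⟨fun i => if x i = 0 then 0 else 1, ?_⟩
    ext i
    rw [emb_apply]
    rcases hx i with h | h
    · rw [if_pos h, h]; unfold σ; rw [if_pos rfl]; norm_num
    · have h1 : x i ≠ 0 := by rw [h]; norm_num
      rw [if_neg h1, h]; unfold σ
      rw [if_neg (by decide)]; norm_num
  exact (Set.finite_range _).subset this

lemma cube_ncard (n : ℕ) : (cube n).ncard ≤ 2 ^ n := by
  have h : cube n = Set.range (emb (n := n)) := by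
    ext x
    constructor
    · intro hx
      refine ⟨fun i => if x i = 0 then 0 else 1, ?_⟩
      ext i
      rw [emb_apply]
      rcases hx i with h | h
      · rw [if_pos h, h]; unfold σ; rw [if_pos rfl]; norm_num
      · have h1 : x i ≠ 0 := by rw [h]; norm_num
        rw [if_neg h1, h]; unfold σ
        rw [if_neg (by decide)]; norm_num
    · rintro ⟨y, rfl⟩; exact emb_mem y
  rw [h, ← Set.image_univ]
  refine (Set.ncard_image_le (Set.toFinite _)).trans ?_
  rw [Set.ncard_univ, Nat.card_eq_fintype_card]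
  simp [ZMod.card]

/-- a set with at most `n` points has width at most zero -/
lemma width_small {n : ℕ} (A : Finset (EuclideanSpace ℝ (Fin n))) (hne : A.Nonempty)
    (hA : A.card ≤ n) : width (convexHull ℝ (A : Set (EuclideanSpace ℝ (Fin n)))) ≤ 0 := by
  classical
  obtain ⟨a, ha⟩ := hne
  set W : Submodule ℝ (EuclideanSpace ℝ (Fin n)) :=
    Submodule.span ℝ (((A.erase a).image (fun x => x - a) : Finset _) : Set _) with hW
  have hfr : Module.finrank ℝ W < n := by
    have h1 := finrank_span_finset_le_card (R := ℝ) ((A.erase a).image (fun x => x - a))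
    have h2 : ((A.erase a).image (fun x => x - a)).card ≤ A.card - 1 := by
      rw [← Finset.card_erase_of_mem ha]; exact Finset.card_image_le
    have h3 : 0 < A.card := Finset.card_pos.2 ⟨a, ha⟩
    have h4 : Module.finrank ℝ W ≤ A.card - 1 := h1.trans h2
    omega
  have hWo : Wᗮ ≠ ⊥ := by
    intro h0
    have h1 := Submodule.finrank_add_finrank_orthogonal W
    rw [h0, finrank_bot, add_zero, finrank_euclideanSpace, Fintype.card_fin] at h1
    omega
  obtain ⟨v, hv, hv0⟩ := Submodule.exists_mem_ne_zero_of_ne_bot hWo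
  set u : EuclideanSpace ℝ (Fin n) := ‖v‖⁻¹ • v with hu
  have hun : ‖u‖ = 1 := by
    rw [hu, norm_smul, norm_inv, norm_norm, inv_mul_cancel₀ (norm_ne_zero_iff.2 hv0)]
  have huW : u ∈ Wᗮ := Submodule.smul_mem _ _ hv
  have hconst : ∀ x ∈ A, inner ℝ u x = inner ℝ u a := by
    intro x hx
    by_cases hxa : x = a
    · rw [hxa]
    · have h1 : x - a ∈ W := Submodule.subset_span (by
        rw [Finset.mem_coe, Finset.mem_image]
        exact ⟨x, Finset.mem_erase.2 ⟨hxa, hx⟩, rfl⟩)
      have h2 := (Submodule.mem_orthogonal W u).1 huW _ h1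
      rw [real_inner_comm, inner_sub_right] at h2
      linarith
  have hconv : ∀ x ∈ convexHull ℝ (A : Set (EuclideanSpace ℝ (Fin n))),
      inner ℝ u x = inner ℝ u a := by
    have hsub : convexHull ℝ (A : Set (EuclideanSpace ℝ (Fin n))) ⊆
        {x | inner ℝ u x = inner ℝ u a} := by
      apply convexHull_min
      · intro x hx; exact hconst x hx
      · exact convex_hyperplane (innerSL ℝ u).toLinearMap.isLinear _
    exact fun x hx => hsub hx
  have himg : (fun x => inner ℝ u x) '' (convexHull ℝ (A : Set (EuclideanSpace ℝ (Fin n)))) =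
      {(inner ℝ u a : ℝ)} := by
    ext z
    constructor
    · rintro ⟨x, hx, rfl⟩; exact hconv x hx
    · rintro rfl
      exact ⟨a, subset_convexHull ℝ _ ha, rfl⟩
  have hle : width (convexHull ℝ (A : Set (EuclideanSpace ℝ (Fin n)))) ≤
      sSup ((fun x => inner ℝ u x) '' (convexHull ℝ (A : Set (EuclideanSpace ℝ (Fin n))))) -
      sInf ((fun x => inner ℝ u x) '' (convexHull ℝ (A : Set (EuclideanSpace ℝ (Fin n))))) := by
    unfold width
    refine ciInf_le_of_le ?_ ⟨u, by rw [mem_sphere_zero_iff_norm]; exact hun⟩ le_rfl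
    refine ⟨0, ?_⟩
    rintro _ ⟨w, rfl⟩
    have hbdd : Bornology.IsBounded (convexHull ℝ (A : Set (EuclideanSpace ℝ (Fin n)))) :=
      isBounded_convexHull.2 A.finite_toSet.isBounded
    have hL : LipschitzWith ‖innerSL ℝ (w : EuclideanSpace ℝ (Fin n))‖₊
        (innerSL ℝ (w : EuclideanSpace ℝ (Fin n))) := ContinuousLinearMap.lipschitz _
    have hb := hL.isBounded_image hbdd
    have hne' : ((innerSL ℝ (w : EuclideanSpace ℝ (Fin n))) ''
        (convexHull ℝ (A : Set (EuclideanSpace ℝ (Fin n))))).Nonempty :=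
      ⟨_, ⟨a, subset_convexHull ℝ _ ha, rfl⟩⟩
    exact sub_nonneg.2 (Real.sInf_le_sSup _ hb.bddBelow hb.bddAbove)
  rw [himg, csSup_singleton, csInf_singleton, sub_self] at hle
  exact hle

lemma packing_upper {n : ℕ} {t : ℝ} (ht : 0 < t) (F : Finset (Set (EuclideanSpace ℝ (Fin n))))
    (hF : IsPacking n t F) : (n + 1) * F.card ≤ 2 ^ n := by
  classical
  obtain ⟨h1, h2⟩ := hF
  have hfin : ∀ A ∈ F, A.Finite := fun A hA => (cube_finite n).subset (h1 A hA).1
  have hcard : ∀ A ∈ F, n + 1 ≤ A.ncard := by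
    intro A hA
    by_contra hlt
    push Not at hlt
    have hw := width_small (n := n) (hfin A hA).toFinset
      (by rw [Set.Finite.toFinset_nonempty]; exact (h1 A hA).2.1)
      (by rw [← Set.ncard_eq_toFinset_card A (hfin A hA)]; omega)
    rw [Set.Finite.coe_toFinset] at hw
    linarith [(h1 A hA).2.2]
  have hunion : (⋃ A ∈ F, A).ncard = ∑ A ∈ F, A.ncard := by
    have : ∀ G ⊆ F, (⋃ A ∈ G, A).ncard = ∑ A ∈ G, A.ncard := by
      intro G
      induction G using Finset.induction_on with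
      | empty => intro _; simp
      | insert B G hB ih =>
        intro hG
        rw [Finset.set_biUnion_insert, Finset.sum_insert hB]
        have hBF : B ∈ F := hG (Finset.mem_insert_self _ _)
        have hGF : G ⊆ F := (Finset.subset_insert _ _).trans hG
        have hdis : Disjoint B (⋃ A ∈ G, A) := by
          rw [Set.disjoint_iUnion₂_right]
          intro A hA
          exact h2 B hBF A (hGF hA) (fun h => hB (h ▸ hA))
        have hfinU : (⋃ A ∈ G, A).Finite :=
          Set.Finite.biUnion G.finite_toSet (fun A hA => hfin A (hGF hA))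
        rw [Set.ncard_union_eq hdis (hfin B hBF) hfinU, ih hGF]
    exact this F (Finset.Subset.refl F)
  have hsub : (⋃ A ∈ F, A) ⊆ cube n := by
    intro x hx
    simp only [Set.mem_iUnion] at hx
    obtain ⟨A, hA, hx⟩ := hx
    exact (h1 A hA).1 hx
  have h3 : ∑ A ∈ F, A.ncard ≤ 2 ^ n := by
    rw [← hunion]
    exact (Set.ncard_le_ncard hsub (cube_finite n)).trans (cube_ncard n)
  have h4 : ∑ A ∈ F, (n + 1) ≤ ∑ A ∈ F, A.ncard := Finset.sum_le_sum hcard
  rw [Finset.sum_const, smul_eq_mul] at h4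
  rw [mul_comm]
  exact h4.trans h3

lemma mono_packing {n : ℕ} {t : ℝ} (ht : t ≤ 1) {F : Finset (Set (EuclideanSpace ℝ (Fin n)))}
    (hF : IsPacking n 1 F) : IsPacking n t F :=
  ⟨fun A hA => ⟨(hF.1 A hA).1, (hF.1 A hA).2.1, ht.trans (hF.1 A hA).2.2⟩, hF.2⟩

lemma N_bdd {n : ℕ} {t : ℝ} (ht : 0 < t) : BddAbove {k | ∃ F, IsPacking n t F ∧ F.card = k} := by
  refine ⟨2 ^ n, ?_⟩
  rintro k ⟨F, hF, rfl⟩
  have := packing_upper ht F hF
  nlinarith

lemma N_nonempty {n : ℕ} {t : ℝ} : {k | ∃ F, IsPacking n t F ∧ F.card = k}.Nonempty :=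
  ⟨0, ∅, ⟨by simp, by simp⟩, rfl⟩

lemma N_upper {n : ℕ} {t : ℝ} (ht : 0 < t) : (n + 1) * N n t ≤ 2 ^ n := by
  obtain ⟨F, hF, hFc⟩ := Nat.sSup_mem (N_nonempty (n := n) (t := t)) (N_bdd ht)
  have h := packing_upper ht F hF
  rw [hFc] at h
  exact h

lemma N_lower {n k : ℕ} {t : ℝ} (hn : 1 ≤ n) (hnk : n < 2 ^ k) (ht0 : 0 < t) (ht : t ≤ 1) :
    2 ^ n ≤ 2 ^ k * N n t := by
  obtain ⟨F, hF, hFc⟩ := exists_packing hn hnk
  refine hFc.trans (Nat.mul_le_mul_left _ ?_)
  exact le_csSup (N_bdd ht0) ⟨F, mono_packing ht hF, rfl⟩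

/-- **Main theorem.** For all `n ≥ 1` and `0 < t ≤ 1`,
`2 ^ n / (2 n) ≤ N(n, t) ≤ 2 ^ n / (n + 1)`; hence `N(n, t) = Θ(2 ^ n / n)` for every fixed `t`.
Moreover `N(n, t) = 2 ^ n / (n + 1)` exactly whenever `n + 1` is a power of two. -/
theorem result :
    (∀ n : ℕ, 1 ≤ n → ∀ t : ℝ, 0 < t → t ≤ 1 →
      2 ^ n ≤ 2 * n * N n t ∧ (n + 1) * N n t ≤ 2 ^ n) ∧
    (∀ t : ℝ, 0 < t → t ≤ 1 →
      (fun n : ℕ => (N n t : ℝ)) =Θ[Filter.atTop] (fun n : ℕ => (2 : ℝ) ^ n / n)) ∧
    (∀ k : ℕ, 1 ≤ k → ∀ n : ℕ, n + 1 = 2 ^ k → ∀ t : ℝ, 0 < t → t ≤ 1 →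
      (n + 1) * N n t = 2 ^ n) := by
  have hA : ∀ n : ℕ, 1 ≤ n → ∀ t : ℝ, 0 < t → t ≤ 1 →
      2 ^ n ≤ 2 * n * N n t ∧ (n + 1) * N n t ≤ 2 ^ n := by
    intro n hn t ht0 ht
    refine ⟨?_, N_upper ht0⟩
    have h1 : n < 2 ^ (Nat.log 2 n + 1) := Nat.lt_pow_succ_log_self (by norm_num) n
    have h2 : 2 ^ Nat.log 2 n ≤ n := Nat.pow_log_le_self 2 (by omega)
    refine (N_lower hn h1 ht0 ht).trans (Nat.mul_le_mul_right _ ?_)
    rw [pow_succ]; omega
  refine ⟨hA, ?_, ?_⟩
  · intro t ht0 ht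
    constructor
    · refine Asymptotics.IsBigO.of_bound 1 ?_
      filter_upwards [Filter.eventually_ge_atTop 1] with n hn
      have h1 := (hA n hn t ht0 ht).2
      have h2 : ((n : ℝ) + 1) * N n t ≤ 2 ^ n := by exact_mod_cast h1
      have hnpos : (0 : ℝ) < n := by exact_mod_cast hn
      have hN : (0 : ℝ) ≤ N n t := Nat.cast_nonneg _
      rw [Real.norm_of_nonneg hN, Real.norm_of_nonneg (by positivity), one_mul,
        le_div_iff₀ hnpos]
      nlinarith
    · refine Asymptotics.IsBigO.of_bound 2 ?_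
      filter_upwards [Filter.eventually_ge_atTop 1] with n hn
      have h1 := (hA n hn t ht0 ht).1
      have h2 : (2 : ℝ) ^ n ≤ 2 * n * N n t := by exact_mod_cast h1
      have hnpos : (0 : ℝ) < n := by exact_mod_cast hn
      have hN : (0 : ℝ) ≤ N n t := Nat.cast_nonneg _
      rw [Real.norm_of_nonneg hN, Real.norm_of_nonneg (by positivity), div_le_iff₀ hnpos]
      linarith
  · intro k hk n hnk t ht0 ht
    have hn : 1 ≤ n := by
      have : 2 ^ 1 ≤ 2 ^ k := Nat.pow_le_pow_right (by norm_num) hk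
      omega
    have h1 := N_lower (k := k) hn (by omega) ht0 ht
    rw [← hnk] at h1
    exact le_antisymm (N_upper ht0) h1

end

end Pool.Agent.Results.MP_1a6900_co.Packing
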